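import Mathlib
import Pool.Agent.Lib.MP_14ee70_nt.TY.Defs2

/-!
# Project TY, file B/Energy: the energy inequality

`g = Ψ(x+b) - Ψ(x)`, `0 ≤ Ψ ≤ φ`.  Pointwise
`g^2 ≤ φ(x)^2/j^2 + φ(x)^2 1[Ψ(x+b) < Ψ(x) - φ(x)/j] + φ(x+b)^2/j^2 + φ(x+b)^2 1[Ψ(x) < Ψ(x+b) - φ(x+b)/j]`:
if `g < 0` then `|g| ≤ φ(x)/j` or the first event holds and `|g| ≤ Ψ(x) ≤ φ(x)`; if `g ≥ 0` symmetrically.
Expectation over `b` and sum over `x`.  In the last two terms put `z = x + b`: `∑_x F(x+b, b) = ∑_z F(z, b)`, the event is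
`Ψ(z - b) < Ψ(z) - φ(z)/j`, and `-b` has the law of `b`.
-/

namespace MP14ee70.TY

open Finset

variable {Q : ℕ} [NeZero Q]

theorem energy (β : Law (ZMod Q)) (hsym : ∀ F : ZMod Q → ℝ, β.E (fun b => F (-b)) = β.E F)
    (j B : ℝ) (hj : 0 < j) (hB : 0 < B) (φ Ψ : ZMod Q → ℝ) (hΨ0 : ∀ x, 0 ≤ Ψ x) (hΨφ : ∀ x, Ψ x ≤ φ x)
    (hP : ∀ x, β.P (fun b => Ψ (x + b) < Ψ x - φ x / j) ≤ j / B) :
    β.E (fun b => ∑ x, (Ψ (x + b) - Ψ x) ^ 2) ≤ (2 / j ^ 2 + 2 * j / B) * ∑ x, φ x ^ 2 := by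
  have hφ0 : ∀ x, 0 ≤ φ x := fun x => (hΨ0 x).trans (hΨφ x)
  obtain ⟨I, hI0, hI1, hI2⟩ : ∃ I : ZMod Q → ZMod Q → ℝ, (∀ x b, 0 ≤ I x b) ∧
      (∀ x b, Ψ (x + b) < Ψ x - φ x / j → I x b = 1) ∧ ∀ x, β.E (I x) ≤ j / B := by
    refine ⟨fun x b => @ite _ (Ψ (x + b) < Ψ x - φ x / j) (Classical.propDecidable _) 1 0, ?_, ?_,
      fun x => hP x⟩
    · intro x b
      beta_reduce
      split_ifs <;> norm_num
    · intro x b h
      beta_reduce
      rw [if_pos h]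
  have key : ∀ x y : ℝ, ∀ p q u v : ℝ, 0 ≤ x → 0 ≤ y → x ≤ p → y ≤ q → 0 ≤ u → 0 ≤ v →
      (y < x - p / j → u = 1) → (x < y - q / j → v = 1) →
      (y - x) ^ 2 ≤ p ^ 2 / j ^ 2 + p ^ 2 * u + (q ^ 2 / j ^ 2 + q ^ 2 * v) := by
    intro x y p q u v hx hy hxp hyq hu hv h1 h2
    have e1 : 0 ≤ p ^ 2 / j ^ 2 := by positivity
    have e2 : 0 ≤ q ^ 2 / j ^ 2 := by positivity
    have e3 : 0 ≤ p ^ 2 * u := by positivity
    have e4 : 0 ≤ q ^ 2 * v := by positivity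
    rcases le_total y x with hyx | hyx
    · by_cases h : y < x - p / j
      · rw [h1 h, mul_one]
        have h3 : (y - x) ^ 2 ≤ p ^ 2 := by nlinarith
        linarith
      · push Not at h
        have h3 : (y - x) ^ 2 ≤ (p / j) ^ 2 := by
          have h4 : x - y ≤ p / j := by linarith
          nlinarith
        rw [div_pow] at h3
        linarith
    · by_cases h : x < y - q / j
      · rw [h2 h, mul_one]
        have h3 : (y - x) ^ 2 ≤ q ^ 2 := by nlinarith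
        linarith
      · push Not at h
        have h3 : (y - x) ^ 2 ≤ (q / j) ^ 2 := by
          have h4 : y - x ≤ q / j := by linarith
          nlinarith
        rw [div_pow] at h3
        linarith
  have hshift : ∀ (F : ZMod Q → ℝ) (b : ZMod Q), ∑ x, F (x + b) = ∑ x, F x := fun F b =>
    Equiv.sum_comp (Equiv.addRight b) F
  have h1 : β.E (fun b => ∑ x, (Ψ (x + b) - Ψ x) ^ 2) ≤
      β.E (fun b => (∑ x, φ x ^ 2 / j ^ 2 + ∑ x, φ x ^ 2 * I x b) +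
        (∑ x, φ x ^ 2 / j ^ 2 + ∑ x, φ x ^ 2 * I x (-b))) := by
    refine β.E_mono fun b => ?_
    rw [← hshift (fun x => φ x ^ 2 * I x (-b)) b]
    nth_rewrite 2 [← hshift (fun x => φ x ^ 2 / j ^ 2) b]
    rw [← Finset.sum_add_distrib, ← Finset.sum_add_distrib, ← Finset.sum_add_distrib]
    refine Finset.sum_le_sum fun x _ => ?_
    refine key _ _ _ _ _ _ (hΨ0 x) (hΨ0 _) (hΨφ x) (hΨφ _) (hI0 _ _) (hI0 _ _) (hI1 x b) ?_
    intro h
    apply hI1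
    rwa [add_neg_cancel_right]
  refine h1.trans ?_
  rw [β.E_add, β.E_add, β.E_add, β.E_const, β.E_sum, β.E_sum]
  have h2 : ∀ x, β.E (fun b => φ x ^ 2 * I x b) ≤ φ x ^ 2 * (j / B) := fun x => by
    rw [β.E_const_mul]
    exact mul_le_mul_of_nonneg_left (hI2 x) (sq_nonneg _)
  have h3 : ∀ x, β.E (fun b => φ x ^ 2 * I x (-b)) ≤ φ x ^ 2 * (j / B) := fun x => by
    rw [β.E_const_mul, hsym (I x)]
    exact mul_le_mul_of_nonneg_left (hI2 x) (sq_nonneg _)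
  have h4 := Finset.sum_le_sum fun x (_ : x ∈ (Finset.univ : Finset (ZMod Q))) => h2 x
  have h5 := Finset.sum_le_sum fun x (_ : x ∈ (Finset.univ : Finset (ZMod Q))) => h3 x
  rw [← Finset.sum_mul] at h4 h5
  rw [← Finset.sum_div]
  have h6 : (2 / j ^ 2 + 2 * j / B) * ∑ x, φ x ^ 2 = ((∑ x, φ x ^ 2) / j ^ 2 +
      (∑ x, φ x ^ 2) * (j / B)) + ((∑ x, φ x ^ 2) / j ^ 2 + (∑ x, φ x ^ 2) * (j / B)) := by
    ring
  rw [h6]
  gcongr

/-- the law of `pos a - pos a'` is symmetric -/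
theorem blaw_symm {S : Type*} (pos : S → ZMod Q) (mA : Law S) (F : ZMod Q → ℝ) :
    (blaw pos mA).E (fun b => F (-b)) = (blaw pos mA).E F := by
  change mA.E (fun a => mA.E (fun a' => F (-(pos a - pos a')))) =
    mA.E (fun a => mA.E (fun a' => F (pos a - pos a')))
  simp only [neg_sub]
  rw [Law.E_comm]

end MP14ee70.TY
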