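import Mathlib
import Pool.Agent.Lib.MP_14ee70_nt.TY.Defs2
import Pool.Agent.Lib.MP_14ee70_nt.TY.Four

/-!
# Project TY, file B/FourB: the energy identity and the pairing with a law

`energy_four`: Parseval for `x ↦ Ψ(x+b) - Ψ(x)`, whose transform is `(ch (-(r b)) - 1) ft Ψ r`, and
`E_b |ch (-(r b)) - 1|^2 = 2 - 2 Re E_b ch (r b) = 2 - 2 |ν(r)|^2` with `ν(r) = E_a ch (r pos a)`
(`E_b ch (r b) = E_a ch (r pos a) conj (E_a' ch (r pos a'))`).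
`pairing`: Plancherel `∑ p Ψ = (1/Q) ∑_r ft p conj (ft Ψ)`.  Over `r ∈ Low`: `|ft p| ≤ 1`, Cauchy-Schwarz and Parseval for `Ψ`:
`≤ (1/Q) sqrt(#Low) sqrt (Q ∑ Ψ^2) ≤ sqrt (#Low / Q)`.  Over the others: Cauchy-Schwarz
`≤ (1/Q) sqrt (Q ∑ p^2) sqrt (∑_{r ∉ Low} |ft Ψ|^2) ≤ sqrt (∑ p^2) / 8`.
-/

namespace MP14ee70.TY

open Finset

variable {Q : ℕ} [NeZero Q]

theorem FourB_sq (z : ZMod Q) : ‖ch (-z) - 1‖ ^ 2 = 2 - 2 * (ch z).re := by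
  have h5 := norm_ch z
  have h6 : ‖ch z‖ ^ 2 = 1 := by rw [h5, one_pow]
  rw [← Complex.normSq_eq_norm_sq, Complex.normSq_apply] at h6
  rw [ch_neg, ← Complex.normSq_eq_norm_sq, Complex.normSq_apply, Complex.sub_re, Complex.sub_im,
    Complex.one_re, Complex.one_im, Complex.conj_re, Complex.conj_im]
  linarith

theorem FourB_bind_EC {α β : Type*} (p : Law α) (κ : α → Law β) (f : β → ℂ) :
    (Law.bind p κ).EC f = p.EC fun x => (κ x).EC f := Complex.ext rfl rfl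

theorem FourB_blaw {S : Type*} (pos : S → ZMod Q) (mA : Law S) (r : ZMod Q) :
    (blaw pos mA).EC (fun b => ch (r * b)) =
      ((‖mA.EC fun a => ch (r * pos a)‖ ^ 2 : ℝ) : ℂ) := by
  unfold blaw
  rw [FourB_bind_EC]
  have h1 : ∀ a : S, (Law.map (fun a' => pos a - pos a') mA).EC (fun b => ch (r * b)) =
      ch (r * pos a) * (starRingEnd ℂ) (mA.EC fun a => ch (r * pos a)) := by
    intro a
    rw [Law.map_EC, ← Law.EC_conj, ← Law.EC_const_mul]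
    congr 1
    funext a'
    rw [mul_sub, sub_eq_add_neg, ch_add, ch_neg]
  have h2 : (fun a => (Law.map (fun a' => pos a - pos a') mA).EC (fun b => ch (r * b))) =
      fun a => ch (r * pos a) * (starRingEnd ℂ) (mA.EC fun a => ch (r * pos a)) := funext h1
  rw [h2, Law.EC_mul_const, Complex.mul_conj, Complex.normSq_eq_norm_sq]

theorem FourB_pars (Ψ : ZMod Q → ℝ) (b : ZMod Q) :
    ∑ x, (Ψ (x + b) - Ψ x) ^ 2 = ∑ r, (‖ft Ψ r‖ ^ 2 / Q) * (2 - 2 * (ch (r * b)).re) := by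
  have hQ : (0 : ℝ) < Q := by exact_mod_cast Nat.pos_of_ne_zero (NeZero.ne Q)
  have h1 := parseval (fun x => Ψ (x + b) - Ψ x)
  have h2 : ∀ r : ZMod Q, ft (fun x => Ψ (x + b) - Ψ x) r = (ch (-(r * b)) - 1) * ft Ψ r := by
    intro r
    rw [sub_mul, ← ft_shift, one_mul]
    unfold ft
    rw [← Finset.sum_sub_distrib]
    refine Finset.sum_congr rfl fun x _ => ?_
    push_cast
    ring
  have h3 : ∑ x, (Ψ (x + b) - Ψ x) ^ 2 = (∑ r, ‖ft (fun x => Ψ (x + b) - Ψ x) r‖ ^ 2) / Q := by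
    rw [h1]
    field_simp
  rw [h3, Finset.sum_div]
  refine Finset.sum_congr rfl fun r _ => ?_
  rw [h2, norm_mul, mul_pow, FourB_sq]
  ring

theorem energy_four {S : Type*} (pos : S → ZMod Q) (mA : Law S) (Ψ : ZMod Q → ℝ) :
    (blaw pos mA).E (fun b => ∑ x, (Ψ (x + b) - Ψ x) ^ 2)
      = 2 / Q * ∑ r, ‖ft Ψ r‖ ^ 2 * (1 - ‖mA.EC fun a => ch (r * pos a)‖ ^ 2) := by
  have h1 : (fun b => ∑ x, (Ψ (x + b) - Ψ x) ^ 2) =
      fun b => ∑ r, (‖ft Ψ r‖ ^ 2 / Q) * (2 - 2 * (ch (r * b)).re) :=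
    funext fun b => FourB_pars Ψ b
  rw [h1, Law.E_sum, Finset.mul_sum]
  refine Finset.sum_congr rfl fun r _ => ?_
  rw [Law.E_const_mul, Law.E_sub, Law.E_const, Law.E_const_mul]
  have h2 : (blaw pos mA).E (fun b => (ch (r * b)).re) =
      ((blaw pos mA).EC (fun b => ch (r * b))).re := rfl
  rw [h2, FourB_blaw, Complex.ofReal_re]
  ring

theorem FourB_norm_ft (p : ZMod Q → ℝ) (hp0 : ∀ x, 0 ≤ p x) (hp1 : ∑ x, p x = 1) (r : ZMod Q) :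
    ‖ft p r‖ ≤ 1 := by
  unfold ft
  refine (norm_sum_le _ _).trans_eq ?_
  rw [← hp1]
  refine Finset.sum_congr rfl fun x _ => ?_
  rw [norm_mul, norm_ch, mul_one, Complex.norm_real, Real.norm_of_nonneg (hp0 x)]

theorem pairing (p Ψ : ZMod Q → ℝ) (hp0 : ∀ x, 0 ≤ p x) (hp1 : ∑ x, p x = 1) (Low : Finset (ZMod Q))
    (hΨ : ∑ x, Ψ x ^ 2 ≤ 1)
    (hhigh : (∑ r ∈ Finset.univ.filter (fun r => r ∉ Low), ‖ft Ψ r‖ ^ 2) / Q ≤ 1 / 64) :
    ∑ x, p x * Ψ x ≤ Real.sqrt (∑ x, p x ^ 2) / 8 + Real.sqrt (Low.card / Q) := by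
  have hQ : (0 : ℝ) < Q := by exact_mod_cast Nat.pos_of_ne_zero (NeZero.ne Q)
  have h1 : (Q : ℝ) * (∑ x, p x * Ψ x) ≤ ∑ r, ‖ft p r‖ * ‖ft Ψ r‖ := by
    have h2 := plancherel p Ψ
    have h3 : ‖(Q : ℂ) * ((∑ x, p x * Ψ x : ℝ) : ℂ)‖ ≤ ∑ r, ‖ft p r‖ * ‖ft Ψ r‖ := by
      rw [← h2]
      refine (norm_sum_le _ _).trans_eq (Finset.sum_congr rfl fun r _ => ?_)
      rw [norm_mul, RCLike.norm_conj]
    rw [norm_mul, Complex.norm_natCast, Complex.norm_real, Real.norm_eq_abs] at h3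
    refine le_trans ?_ h3
    exact mul_le_mul_of_nonneg_left (le_abs_self _) hQ.le
  have hsplit : ∑ r, ‖ft p r‖ * ‖ft Ψ r‖ = ∑ r ∈ Low, ‖ft p r‖ * ‖ft Ψ r‖ +
      ∑ r ∈ Finset.univ.filter (fun r => r ∉ Low), ‖ft p r‖ * ‖ft Ψ r‖ := by
    rw [← Finset.sum_filter_add_sum_filter_not Finset.univ (fun r => r ∈ Low)]
    congr 1
    refine Finset.sum_congr ?_ fun _ _ => rfl
    ext r
    simp
  have hlow : ∑ r ∈ Low, ‖ft p r‖ * ‖ft Ψ r‖ ≤ Q * Real.sqrt (Low.card / Q) := by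
    refine (Real.sum_mul_le_sqrt_mul_sqrt Low _ _).trans ?_
    have h2 : ∑ r ∈ Low, ‖ft p r‖ ^ 2 ≤ Low.card := by
      have h3 : ∀ r ∈ Low, ‖ft p r‖ ^ 2 ≤ (1 : ℝ) := fun r _ =>
        pow_le_one₀ (norm_nonneg _) (FourB_norm_ft p hp0 hp1 r)
      refine (Finset.sum_le_card_nsmul _ _ _ h3).trans_eq ?_
      rw [nsmul_eq_mul, mul_one]
    have h3 : ∑ r ∈ Low, ‖ft Ψ r‖ ^ 2 ≤ Q := by
      calc ∑ r ∈ Low, ‖ft Ψ r‖ ^ 2 ≤ ∑ r, ‖ft Ψ r‖ ^ 2 :=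
            Finset.sum_le_sum_of_subset_of_nonneg (Finset.subset_univ _) fun _ _ _ => by positivity
        _ = Q * ∑ x, Ψ x ^ 2 := parseval Ψ
        _ ≤ Q * 1 := mul_le_mul_of_nonneg_left hΨ hQ.le
        _ = Q := mul_one _
    calc Real.sqrt (∑ r ∈ Low, ‖ft p r‖ ^ 2) * Real.sqrt (∑ r ∈ Low, ‖ft Ψ r‖ ^ 2)
        ≤ Real.sqrt Low.card * Real.sqrt Q :=
          mul_le_mul (Real.sqrt_le_sqrt h2) (Real.sqrt_le_sqrt h3) (Real.sqrt_nonneg _)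
            (Real.sqrt_nonneg _)
      _ = Q * Real.sqrt (Low.card / Q) := by
          rw [Real.sqrt_div (Nat.cast_nonneg _)]
          have h4 : Real.sqrt (Q : ℝ) ≠ 0 := (Real.sqrt_pos.2 hQ).ne'
          have h5 : Real.sqrt (Q : ℝ) * Real.sqrt Q = Q := Real.mul_self_sqrt hQ.le
          rw [eq_comm, mul_div_assoc', div_eq_iff h4, mul_assoc, h5, mul_comm]
  have hhi : ∑ r ∈ Finset.univ.filter (fun r => r ∉ Low), ‖ft p r‖ * ‖ft Ψ r‖ ≤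
      Q * (Real.sqrt (∑ x, p x ^ 2) / 8) := by
    refine (Real.sum_mul_le_sqrt_mul_sqrt _ _ _).trans ?_
    have h2 : ∑ r ∈ Finset.univ.filter (fun r => r ∉ Low), ‖ft p r‖ ^ 2 ≤
        Q * ∑ x, p x ^ 2 := by
      rw [← parseval p]
      exact Finset.sum_le_sum_of_subset_of_nonneg (Finset.subset_univ _) fun _ _ _ => by positivity
    have h3 : ∑ r ∈ Finset.univ.filter (fun r => r ∉ Low), ‖ft Ψ r‖ ^ 2 ≤ Q * (1 / 8) ^ 2 := by
      rw [div_le_iff₀ hQ] at hhigh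
      linarith
    calc Real.sqrt (∑ r ∈ Finset.univ.filter (fun r => r ∉ Low), ‖ft p r‖ ^ 2) *
          Real.sqrt (∑ r ∈ Finset.univ.filter (fun r => r ∉ Low), ‖ft Ψ r‖ ^ 2)
        ≤ Real.sqrt (Q * ∑ x, p x ^ 2) * Real.sqrt (Q * (1 / 8) ^ 2) :=
          mul_le_mul (Real.sqrt_le_sqrt h2) (Real.sqrt_le_sqrt h3) (Real.sqrt_nonneg _)
            (Real.sqrt_nonneg _)
      _ = (Real.sqrt Q * Real.sqrt Q) * (Real.sqrt (∑ x, p x ^ 2) / 8) := by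
          rw [Real.sqrt_mul hQ.le, Real.sqrt_mul hQ.le, Real.sqrt_sq (by norm_num)]
          ring
      _ = _ := by rw [Real.mul_self_sqrt hQ.le]
  rw [hsplit] at h1
  have h7 : (Q : ℝ) * (∑ x, p x * Ψ x) ≤
      Q * (Real.sqrt (∑ x, p x ^ 2) / 8 + Real.sqrt (Low.card / Q)) := by
    rw [mul_add]
    linarith
  exact le_of_mul_le_mul_left h7 hQ

end MP14ee70.TY
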