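import Mathlib
import Pool.Agent.Lib.MP_14ee70_nt.TY.Defs2

/-!
# Project TY, file B/Quant: the value functions

`quant`: the least value `lam = f z` with `P(f(x+b) ≤ lam) ≥ 1/B` (`Finset.exists_min_image` over
the finite type; the largest value of `f` has probability `1 ≥ 1/B`).  If `lam` is the least one then
`{f (x+b) < lam}` is empty or equal to `{f (x+b) ≤ lam'}` for the largest value `lam' < lam` of `f`: probability `< 1/B`.
`exists_Phi`: recursion `Φ (i+1) x = min (Φ i x) (lam i x)`.  For the last statement: outside the union over `i < j`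
of the events `Φ i (x+b) < lam i x` (probability `≤ j/B`, `Law.P_exists_le`) one has
`Φ i (x+b) ≥ lam i x ≥ Φ (i+1) x`, so
`∑_{i<j} Φ i (x+b) ≥ ∑_{i<j} Φ (i+1) x = ∑_{i<j} Φ i x + Φ j x - φ x ≥ ∑_{i<j} Φ i x - φ x`.
-/

namespace MP14ee70.TY

open Finset

variable {Q : ℕ} [NeZero Q]

theorem quant (β : Law (ZMod Q)) (B : ℝ) (hB : 1 ≤ B) (f : ZMod Q → ℝ) (x : ZMod Q) :
    ∃ lam : ℝ, 1 / B ≤ β.P (fun b => f (x + b) ≤ lam) ∧ β.P (fun b => f (x + b) < lam) ≤ 1 / B ∧
      ∃ z, lam = f z := by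
  classical
  have hB0 : 0 < B := by linarith
  have h1B : 1 / B ≤ 1 := by
    rw [div_le_one hB0]
    exact hB
  have hP1 : β.P (fun _ => True) = 1 := by
    unfold Law.P
    simp only [if_true]
    exact β.E_const 1
  obtain ⟨z0, -, hz0⟩ := Finset.exists_max_image (Finset.univ : Finset (ZMod Q)) f
    Finset.univ_nonempty
  have hne : (Finset.univ.filter fun z => 1 / B ≤ β.P (fun b => f (x + b) ≤ f z)).Nonempty := by
    refine ⟨z0, Finset.mem_filter.2 ⟨Finset.mem_univ _, ?_⟩⟩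
    exact (h1B.trans hP1.ge).trans (β.P_mono fun b _ => hz0 (x + b) (Finset.mem_univ _))
  obtain ⟨z, hz, hmin⟩ := Finset.exists_min_image _ f hne
  refine ⟨f z, (Finset.mem_filter.1 hz).2, ?_, z, rfl⟩
  by_cases h : (Finset.univ.filter fun w => f w < f z).Nonempty
  · obtain ⟨z', hz', hmax⟩ := Finset.exists_max_image _ f h
    have h2 : f z' < f z := (Finset.mem_filter.1 hz').2
    have h3 : ¬ 1 / B ≤ β.P (fun b => f (x + b) ≤ f z') := by
      intro h4
      exact absurd (hmin z' (Finset.mem_filter.2 ⟨Finset.mem_univ _, h4⟩)) (not_le.2 h2)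
    refine (β.P_mono fun b hb => ?_).trans (not_le.1 h3).le
    exact hmax (x + b) (Finset.mem_filter.2 ⟨Finset.mem_univ _, hb⟩)
  · have h2 : β.P (fun b => f (x + b) < f z) ≤ β.P (fun _ => False) :=
      β.P_mono fun b hb => h ⟨x + b, Finset.mem_filter.2 ⟨Finset.mem_univ _, hb⟩⟩
    have h3 : β.P (fun _ => False) = 0 := by
      unfold Law.P
      simp only [if_false]
      exact β.E_const 0
    rw [h3] at h2
    exact h2.trans (by positivity)

theorem exists_Phi (β : Law (ZMod Q)) (B : ℝ) (hB : 1 ≤ B) (φ : ZMod Q → ℝ) (hφ : ∀ x, 0 ≤ φ x) :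
    ∃ Φ : ℕ → ZMod Q → ℝ, Φ 0 = φ ∧ (∀ i x, 0 ≤ Φ i x) ∧ (∀ i x, Φ (i + 1) x ≤ Φ i x) ∧
      (∀ i x, ∃ lam : ℝ, Φ (i + 1) x = min (Φ i x) lam ∧ 1 / B ≤ β.P (fun b => Φ i (x + b) ≤ lam)) ∧
      ∀ j : ℕ, 1 ≤ j → ∀ x, β.P (fun b => (∑ i ∈ Finset.range j, Φ i (x + b)) / j
        < (∑ i ∈ Finset.range j, Φ i x) / j - φ x / j) ≤ j / B := by
  choose lam h1 h2 h3 using quant β B hB
  let Φ : ℕ → ZMod Q → ℝ := fun i => Nat.rec φ (fun _ f x => min (f x) (lam f x)) i
  have hs : ∀ i x, Φ (i + 1) x = min (Φ i x) (lam (Φ i) x) := fun _ _ => rfl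
  have hnn : ∀ i x, 0 ≤ Φ i x := by
    intro i
    induction i with
    | zero => exact hφ
    | succ i ih =>
      intro x
      rw [hs]
      obtain ⟨z, hz⟩ := h3 (Φ i) x
      rw [hz]
      exact le_min (ih x) (ih z)
  refine ⟨Φ, rfl, hnn, fun i x => by rw [hs]; exact min_le_left _ _,
    fun i x => ⟨lam (Φ i) x, hs i x, h1 (Φ i) x⟩, ?_⟩
  intro j hj x
  have hj0 : (0 : ℝ) < j := by exact_mod_cast hj
  have h4 : β.P (fun b => (∑ i ∈ Finset.range j, Φ i (x + b)) / j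
        < (∑ i ∈ Finset.range j, Φ i x) / j - φ x / j) ≤
      β.P (fun b => ∃ i ∈ Finset.range j, Φ i (x + b) < lam (Φ i) x) := by
    refine β.P_mono fun b hb => ?_
    by_contra hcon
    push Not at hcon
    rw [← sub_div] at hb
    have h5 := (div_lt_div_iff_of_pos_right hj0).1 hb
    have h6 : ∑ i ∈ Finset.range j, Φ (i + 1) x ≤ ∑ i ∈ Finset.range j, Φ i (x + b) := by
      refine Finset.sum_le_sum fun i hi => ?_
      rw [hs]
      exact (min_le_right _ _).trans (hcon i hi)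
    have h7 : ∑ i ∈ Finset.range j, Φ (i + 1) x - ∑ i ∈ Finset.range j, Φ i x = Φ j x - Φ 0 x := by
      rw [← Finset.sum_sub_distrib]
      exact Finset.sum_range_sub (fun i => Φ i x) j
    have h8 : Φ 0 x = φ x := rfl
    have h9 := hnn j x
    linarith
  refine h4.trans ((Law.P_exists_le β _ _).trans ?_)
  refine (Finset.sum_le_card_nsmul _ _ (1 / B) fun i _ => h2 (Φ i) x).trans ?_
  rw [Finset.card_range, nsmul_eq_mul, mul_one_div]

end MP14ee70.TY
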