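import Mathlib
import Pool.Agent.Lib.MP_14ee70_nt.TY.Defs2

/-!
# Project TY, file B/Strat: the strategies

Induction on `j`.  `j = 0`: the point mass at `(1, 1)` (`pos 1 = 0` follows from `hpos`).
`j → j + 1`, from `x`.  Let `lam` be as in `hΦ j x`.  If `Φ (j+1) x = Φ j x`: take `a` with law `mA` and, independently,
the strategy `κ` of length `j` from `x`; the new pair is `(a z.1, a z.2)` (the same `a`), `pos (a z.1) - pos (a z.2) =
pos z.1 - pos z.2`.  Otherwise `Φ (j+1) x = lam`: take `(a, a')` independent with law `mA`, conditioned on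
`Φ j (x + (pos a - pos a')) ≤ lam` (`Law.tilt` by the indicator; probability `≥ 1/B`, so the law of `(a, a')` is `≤ B` times the
product law, `Law.dom_tilt`), then the strategy of length `j` from `x + (pos a - pos a')`; the new pair is
`(a z.1, a' z.2)`.  Marginals: for `F ≥ 0`, `E F(a z.1) = E_{(a,a')} κ.E F(a ·) ≤ B^j E_{(a,a')} (mA^j).E F(a ·) ≤
B^(j+1) (mA * mA^j).E F`.
-/

namespace MP14ee70.TY

open Finset

variable {Q : ℕ} [NeZero Q]

theorem strat_dom {S T : Type*} [CommMonoid S] (mA : Law S) (C : ℝ) (j : ℕ) (t : Law T) (K : ℝ)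
    (g : T → S) (ht : Law.Dom K (Law.map g t) mA) (κ : T → Law S)
    (hκ : ∀ z, Law.Dom C (κ z) (mA ^ j)) (F : S → ℝ) (hF : ∀ x, 0 ≤ F x) :
    t.E (fun z => (κ z).E (fun w => F (g z * w))) ≤ K * C * (mA ^ (j + 1)).E F := by
  have hC : ∀ z : T, 0 ≤ C := fun z => zero_le_one.trans (hκ z).one_le
  have h1 : t.E (fun z => (κ z).E (fun w => F (g z * w))) ≤
      t.E (fun z => C * (mA ^ j).E (fun w => F (g z * w))) :=
    t.E_mono fun z => hκ z (fun w => F (g z * w)) fun w => hF _
  have h2 : t.E (fun z => C * (mA ^ j).E (fun w => F (g z * w))) =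
      C * (Law.map g t).E (fun a => (mA ^ j).E (fun w => F (a * w))) := by
    rw [Law.E_const_mul]
    rfl
  have h3 := ht (fun a => (mA ^ j).E (fun w => F (a * w))) fun a => (mA ^ j).E_nonneg fun w => hF _
  have hT : 0 ≤ C := by
    obtain ⟨ι, _, a, w, hw, hw1, h⟩ := t.fin'
    rcases isEmpty_or_nonempty ι with hι | ⟨⟨i⟩⟩
    · rw [Finset.sum_of_isEmpty] at hw1
      exact absurd hw1 (by norm_num)
    · exact hC (a i)
  refine h1.trans (h2.le.trans ((mul_le_mul_of_nonneg_left h3 hT).trans (le_of_eq ?_)))
  rw [pow_succ', Law.mul_E]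
  ring

theorem strat {S : Type*} [CommMonoid S] (pos : S → ZMod Q) (hpos : ∀ x y, pos (x * y) = pos x + pos y)
    (mA : Law S) (B : ℝ) (hB : 1 ≤ B) (Φ : ℕ → ZMod Q → ℝ)
    (hΦ : ∀ i x, ∃ lam : ℝ, Φ (i + 1) x = min (Φ i x) lam ∧
      1 / B ≤ (blaw pos mA).P (fun b => Φ i (x + b) ≤ lam)) (j : ℕ) (x : ZMod Q) :
    ∃ κ : Law (S × S), Law.Dom (B ^ j) (Law.map Prod.fst κ) (mA ^ j) ∧
      Law.Dom (B ^ j) (Law.map Prod.snd κ) (mA ^ j) ∧
      κ.E (fun z => Φ 0 (x + (pos z.1 - pos z.2))) ≤ Φ j x := by
  classical
  induction j generalizing x with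
  | zero =>
    refine ⟨Law.dirac (1, 1), ?_, ?_, ?_⟩
    · intro F _
      rw [pow_zero, pow_zero, one_mul]
      exact le_refl _
    · intro F _
      rw [pow_zero, pow_zero, one_mul]
      exact le_refl _
    · rw [Law.dirac_E, sub_self, add_zero]
  | succ j ih =>
    choose κ hκ1 hκ2 hκ3 using ih
    obtain ⟨lam, hl, hP⟩ := hΦ j x
    have hB0 : 0 < B := by linarith
    rcases le_or_gt (Φ j x) lam with hc | hc
    · rw [min_eq_left hc] at hl
      refine ⟨Law.bind mA fun a => Law.map (fun z => (a * z.1, a * z.2)) (κ x), ?_, ?_, ?_⟩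
      · intro F hF
        have h := strat_dom mA (B ^ j) j mA 1 id (Law.Dom.refl mA)
          (fun _ => Law.map Prod.fst (κ x)) (fun _ => hκ1 x) F hF
        refine h.trans (mul_le_mul_of_nonneg_right ?_ ((mA ^ (j + 1)).E_nonneg hF))
        rw [one_mul, pow_succ]
        exact le_mul_of_one_le_right (by positivity) hB
      · intro F hF
        have h := strat_dom mA (B ^ j) j mA 1 id (Law.Dom.refl mA)
          (fun _ => Law.map Prod.snd (κ x)) (fun _ => hκ2 x) F hF
        refine h.trans (mul_le_mul_of_nonneg_right ?_ ((mA ^ (j + 1)).E_nonneg hF))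
        rw [one_mul, pow_succ]
        exact le_mul_of_one_le_right (by positivity) hB
      · rw [hl, Law.bind_E]
        refine mA.E_le_of_le fun a => ?_
        rw [Law.map_E]
        refine le_trans (le_of_eq ?_) (hκ3 x)
        congr 1
        funext z
        rw [hpos, hpos, add_sub_add_left_eq_sub]
    · rw [min_eq_right hc.le] at hl
      set pr : Law (S × S) := Law.bind mA fun a => Law.map (fun a' => (a, a')) mA with hpr
      set v : S × S → ℝ := fun z => if Φ j (x + (pos z.1 - pos z.2)) ≤ lam then 1 else 0 with hv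
      have hv0 : ∀ z, 0 ≤ v z := by
        intro z
        rw [hv]
        dsimp only
        split_ifs <;> norm_num
      have hv1 : ∀ z, v z ≤ 1 := by
        intro z
        rw [hv]
        dsimp only
        split_ifs <;> norm_num
      have hE : 1 / B ≤ pr.E v := by
        refine hP.trans (le_of_eq ?_)
        unfold Law.P blaw
        rw [Law.bind_E, hpr, Law.bind_E]
        rfl
      have hE0 : 0 < pr.E v := lt_of_lt_of_le (by positivity) hE
      have hdom := Law.dom_tilt pr v hv0 hE0 hv1
      have hdB : Law.Dom B (Law.tilt pr v hv0 hE0) pr := by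
        refine hdom.mono ?_
        rw [one_div]
        rw [one_div] at hE
        exact inv_le_of_inv_le₀ hB0 hE
      have hfst : Law.Dom B (Law.map Prod.fst (Law.tilt pr v hv0 hE0)) mA := by
        have h := hdB.map (Prod.fst : S × S → S)
        have e : Law.map Prod.fst pr = mA := by
          ext f
          rw [Law.map_E, hpr, Law.bind_E]
          congr 1
          funext a
          rw [Law.map_E]
          exact mA.E_const (f a)
        rwa [e] at h
      have hsnd : Law.Dom B (Law.map Prod.snd (Law.tilt pr v hv0 hE0)) mA := by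
        have h := hdB.map (Prod.snd : S × S → S)
        have e : Law.map Prod.snd pr = mA := by
          ext f
          rw [Law.map_E, hpr, Law.bind_E]
          exact mA.E_const (mA.E f)
        rwa [e] at h
      refine ⟨Law.bind (Law.tilt pr v hv0 hE0) fun z => Law.map (fun w => (z.1 * w.1, z.2 * w.2))
        (κ (x + (pos z.1 - pos z.2))), ?_, ?_, ?_⟩
      · intro F hF
        have h := strat_dom mA (B ^ j) j (Law.tilt pr v hv0 hE0) B Prod.fst hfst
          (fun z => Law.map Prod.fst (κ (x + (pos z.1 - pos z.2))))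
          (fun z => hκ1 _) F hF
        refine h.trans (le_of_eq ?_)
        rw [pow_succ' B]
      · intro F hF
        have h := strat_dom mA (B ^ j) j (Law.tilt pr v hv0 hE0) B Prod.snd hsnd
          (fun z => Law.map Prod.snd (κ (x + (pos z.1 - pos z.2))))
          (fun z => hκ2 _) F hF
        refine h.trans (le_of_eq ?_)
        rw [pow_succ' B]
      · rw [hl, Law.bind_E]
        have h1 : ∀ z : S × S, (Law.map (fun w : S × S => (z.1 * w.1, z.2 * w.2))
            (κ (x + (pos z.1 - pos z.2)))).E (fun z => Φ 0 (x + (pos z.1 - pos z.2))) ≤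
            Φ j (x + (pos z.1 - pos z.2)) := by
          intro z
          rw [Law.map_E]
          refine le_trans (le_of_eq ?_) (hκ3 (x + (pos z.1 - pos z.2)))
          congr 1
          funext w
          rw [hpos, hpos]
          congr 1
          ring
        refine ((Law.tilt pr v hv0 hE0).E_mono h1).trans ?_
        rw [Law.tilt_E, div_le_iff₀ hE0, ← Law.E_const_mul]
        refine pr.E_mono fun z => ?_
        rw [hv]
        dsimp only
        split_ifs with h
        · rw [one_mul, mul_one]
          exact h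
        · rw [zero_mul, mul_zero]

end MP14ee70.TY
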