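import Mathlib
import Pool.Agent.Lib.MP_14ee70_nt.TY.B.Quant
import Pool.Agent.Lib.MP_14ee70_nt.TY.B.Energy
import Pool.Agent.Lib.MP_14ee70_nt.TY.B.FourB
import Pool.Agent.Lib.MP_14ee70_nt.TY.B.Strat

/-!
# Project TY, file B/Proj: Proposition B (one controlled two-sided walk of `j` steps)

`value_bound`: for `φ ≥ 0`, `∑ φ^2 = 1` and `Φ` as in `exists_Phi` (for `β = blaw pos mA`): for every law `p` on `ZMod Q`,
`∑ p.pm x Φ j x ≤ sqrt (∑ p.pm^2)/8 + sqrt (#Low/Q)`: `Ψ = (1/j) ∑_{i<j} Φ i`, `Φ j ≤ Ψ ≤ φ`; `energy`, `energy_four`, the terms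
with `r ∉ Low` satisfy `1 - |ν|^2 ≥ η` and all terms are `≥ 0` (`|ν| ≤ 1`): `(1/Q) ∑_{r ∉ Low} |ft Ψ|^2 ≤ (1/j^2 + j/B)/η ≤ 1/64`; `pairing`.

`propB`: let `KK ⊆ EuclideanSpace ℝ (ZMod Q)` be the set of the vectors `(dlaw pos π').pm` for the `π'` satisfying the two
dominations.  It is convex (`Law.mix`), nonempty (`π' = π` followed by `kappa` of `strat`, or by `(a_1⋯a_j, a_1⋯a_j)`).  Let `p*` be the
element of least norm of its closure (`exists_norm_eq_iInf_of_complete_convex`, `norm_eq_iInf_iff_real_inner_le_zero`), so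
`⟨p', p*⟩ ≥ |p*|^2` for all `p' ∈ KK`.  If `p* ≠ 0` put `φ = p* / |p*| ≥ 0` and compose: `π' = bind π (fun (U,V) =>
map (fun z => (U z.1, V z.2)) (κ (pos U - pos V)))` with `κ` from `strat` for `φ`; `π'` satisfies the dominations, and
`|p*| ≤ ⟨p', φ⟩ = E φ(pos U - pos V + (pos z.1 - pos z.2)) ≤ E Φ j (pos U - pos V) ≤ sqrt (∑ p^2)/8 + sqrt (#Low/Q)`
(`value_bound` for `p = dlaw pos π`).  An element of `KK` within `ε` of `p*` is what we want.
-/

namespace MP14ee70.TY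

open Finset

variable {Q : ℕ} [NeZero Q]

theorem value_bound {S : Type*} [CommMonoid S] (pos : S → ZMod Q) (mA : Law S) (η : ℝ) (hη : 0 < η)
    (Low : Finset (ZMod Q)) (hν : ∀ r, r ∉ Low → ‖mA.EC fun a => ch (r * pos a)‖ ^ 2 ≤ 1 - η)
    (j : ℕ) (hj : 1 ≤ j) (B : ℝ) (hB : 1 ≤ B) (hjB : 1 / (j : ℝ) ^ 2 + j / B ≤ η / 64)
    (φ : ZMod Q → ℝ) (hφ : ∑ x, φ x ^ 2 = 1) (Φ : ℕ → ZMod Q → ℝ) (h0 : Φ 0 = φ)
    (hpos : ∀ i x, 0 ≤ Φ i x) (hanti : ∀ i x, Φ (i + 1) x ≤ Φ i x)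
    (hP : ∀ x, (blaw pos mA).P (fun b => (∑ i ∈ Finset.range j, Φ i (x + b)) / j
        < (∑ i ∈ Finset.range j, Φ i x) / j - φ x / j) ≤ j / B) (p : Law (ZMod Q)) :
    ∑ x, p.pm x * Φ j x ≤ Real.sqrt (∑ x, p.pm x ^ 2) / 8 + Real.sqrt (Low.card / Q) := by
  classical
  have hj0 : (0 : ℝ) < j := by exact_mod_cast hj
  have hB0 : 0 < B := by linarith
  have hQ0 : (0 : ℝ) < Q := by exact_mod_cast Nat.pos_of_ne_zero (NeZero.ne Q)
  have hanti' : ∀ (x : ZMod Q) (i i' : ℕ), i ≤ i' → Φ i' x ≤ Φ i x := by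
    intro x i i' h
    induction i', h using Nat.le_induction with
    | base => exact le_refl _
    | succ n _ ih => exact (hanti n x).trans ih
  set Ψ : ZMod Q → ℝ := fun x => (∑ i ∈ Finset.range j, Φ i x) / j with hΨ
  have hΨ0 : ∀ x, 0 ≤ Ψ x := fun x => div_nonneg (Finset.sum_nonneg fun i _ => hpos i x) hj0.le
  have hΨφ : ∀ x, Ψ x ≤ φ x := by
    intro x
    simp only [hΨ]
    rw [div_le_iff₀ hj0, ← h0]
    calc ∑ i ∈ Finset.range j, Φ i x ≤ ∑ i ∈ Finset.range j, Φ 0 x :=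
          Finset.sum_le_sum fun i _ => hanti' x 0 i (Nat.zero_le i)
      _ = Φ 0 x * j := by rw [Finset.sum_const, Finset.card_range, nsmul_eq_mul, mul_comm]
  have hΦΨ : ∀ x, Φ j x ≤ Ψ x := by
    intro x
    simp only [hΨ]
    rw [le_div_iff₀ hj0]
    calc Φ j x * j = ∑ i ∈ Finset.range j, Φ j x := by
          rw [Finset.sum_const, Finset.card_range, nsmul_eq_mul, mul_comm]
      _ ≤ ∑ i ∈ Finset.range j, Φ i x :=
          Finset.sum_le_sum fun i hi => hanti' x i j (Finset.mem_range.1 hi).le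
  have hen := energy (blaw pos mA) (blaw_symm pos mA) j B hj0 hB0 φ Ψ hΨ0 hΨφ hP
  rw [hφ, mul_one, energy_four] at hen
  have hΨ1 : ∑ x, Ψ x ^ 2 ≤ 1 := by
    rw [← hφ]
    exact Finset.sum_le_sum fun x _ => pow_le_pow_left₀ (hΨ0 x) (hΨφ x) 2
  have hν1 : ∀ r : ZMod Q, ‖mA.EC fun a => ch (r * pos a)‖ ≤ 1 := by
    intro r
    refine (mA.norm_EC_le _).trans ?_
    exact mA.E_le_of_le fun a => (norm_ch _).le
  have hhigh : (∑ r ∈ Finset.univ.filter (fun r => r ∉ Low), ‖ft Ψ r‖ ^ 2) / Q ≤ 1 / 64 := by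
    have h1 : η * ∑ r ∈ Finset.univ.filter (fun r => r ∉ Low), ‖ft Ψ r‖ ^ 2
        ≤ ∑ r, ‖ft Ψ r‖ ^ 2 * (1 - ‖mA.EC fun a => ch (r * pos a)‖ ^ 2) := by
      rw [Finset.mul_sum]
      refine le_trans (Finset.sum_le_sum fun r hr => ?_)
        (Finset.sum_le_sum_of_subset_of_nonneg (Finset.filter_subset (fun r => r ∉ Low) Finset.univ)
          fun r _ _ => ?_)
      · rw [mul_comm]
        refine mul_le_mul_of_nonneg_left ?_ (by positivity)
        have := hν r (Finset.mem_filter.1 hr).2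
        linarith
      · refine mul_nonneg (by positivity) ?_
        have := pow_le_one₀ (norm_nonneg _) (hν1 r) (n := 2)
        linarith
    set X := ∑ r ∈ Finset.univ.filter (fun r => r ∉ Low), ‖ft Ψ r‖ ^ 2 with hX
    have h2 : 2 / (Q : ℝ) * (η * X) ≤ 2 / (j : ℝ) ^ 2 + 2 * j / B :=
      le_trans (mul_le_mul_of_nonneg_left h1 (by positivity)) hen
    have h3 : 2 / (j : ℝ) ^ 2 + 2 * j / B = 2 * (1 / (j : ℝ) ^ 2 + j / B) := by ring
    have h4 : 2 / (Q : ℝ) * (η * X) = 2 * η * (X / Q) := by ring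
    rw [h3, h4] at h2
    have h5 : 2 * η * (X / Q) ≤ 2 * η * (1 / 64) := by
      refine h2.trans ?_
      linarith
    exact le_of_mul_le_mul_left h5 (by positivity)
  refine le_trans ?_ (pairing p.pm Ψ p.pm_nonneg p.sum_pm Low hΨ1 hhigh)
  exact Finset.sum_le_sum fun x _ => mul_le_mul_of_nonneg_left (hΦΨ x) (p.pm_nonneg x)

/-- the set of the admissible vectors -/
def KK {S : Type*} [CommMonoid S] (pos : S → ZMod Q) (mA : Law S) (j : ℕ) (B : ℝ)
    (π : Law (S × S)) : Set (EuclideanSpace ℝ (ZMod Q)) :=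
  {v | ∃ π' : Law (S × S), Law.Dom (B ^ j) (Law.map Prod.fst π') (Law.map Prod.fst π * mA ^ j) ∧
      Law.Dom (B ^ j) (Law.map Prod.snd π') (Law.map Prod.snd π * mA ^ j) ∧
      ∀ x, v x = (dlaw pos π').pm x}

theorem KK_convex {S : Type*} [CommMonoid S] (pos : S → ZMod Q) (mA : Law S) (j : ℕ) (B : ℝ)
    (π : Law (S × S)) : Convex ℝ (KK pos mA j B π) := by
  rintro v ⟨π1, a1, b1, c1⟩ w ⟨π2, a2, b2, c2⟩ s t hs ht hst
  have ht1 : t ≤ 1 := by linarith
  have hs1 : s = 1 - t := by linarith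
  refine ⟨Law.mix t ht ht1 π1 π2, ?_, ?_, ?_⟩
  · intro F hF
    have h1 := a1 F hF
    have h2 := a2 F hF
    have e : (Law.map Prod.fst (Law.mix t ht ht1 π1 π2)).E F
        = (1 - t) * (Law.map Prod.fst π1).E F + t * (Law.map Prod.fst π2).E F := rfl
    rw [e]
    have h3 := mul_le_mul_of_nonneg_left h1 (sub_nonneg.2 ht1)
    have h4 := mul_le_mul_of_nonneg_left h2 ht
    nlinarith
  · intro F hF
    have h1 := b1 F hF
    have h2 := b2 F hF
    have e : (Law.map Prod.snd (Law.mix t ht ht1 π1 π2)).E F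
        = (1 - t) * (Law.map Prod.snd π1).E F + t * (Law.map Prod.snd π2).E F := rfl
    rw [e]
    have h3 := mul_le_mul_of_nonneg_left h1 (sub_nonneg.2 ht1)
    have h4 := mul_le_mul_of_nonneg_left h2 ht
    nlinarith
  · intro x
    have e : (dlaw pos (Law.mix t ht ht1 π1 π2)).pm x
        = (1 - t) * (dlaw pos π1).pm x + t * (dlaw pos π2).pm x := rfl
    rw [e, ← c1, ← c2, hs1]
    simp

/-- composition of `π` with kernels which depend on `pos U - pos V` only -/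
theorem compose_dom {S : Type*} [CommMonoid S] (pos : S → ZMod Q) (mA : Law S) (j : ℕ) (B : ℝ)
    (π : Law (S × S)) (κ : ZMod Q → Law (S × S))
    (h1 : ∀ x, Law.Dom (B ^ j) (Law.map Prod.fst (κ x)) (mA ^ j))
    (h2 : ∀ x, Law.Dom (B ^ j) (Law.map Prod.snd (κ x)) (mA ^ j)) :
    ∃ π' : Law (S × S),
      π' = Law.bind π (fun u => Law.map (fun z => (u.1 * z.1, u.2 * z.2)) (κ (pos u.1 - pos u.2))) ∧
      Law.Dom (B ^ j) (Law.map Prod.fst π') (Law.map Prod.fst π * mA ^ j) ∧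
      Law.Dom (B ^ j) (Law.map Prod.snd π') (Law.map Prod.snd π * mA ^ j) := by
  refine ⟨_, rfl, ?_, ?_⟩
  · intro F hF
    have e1 : (Law.map Prod.fst (Law.bind π (fun u => Law.map (fun z => (u.1 * z.1, u.2 * z.2))
        (κ (pos u.1 - pos u.2))))).E F
        = π.E (fun u => (Law.map Prod.fst (κ (pos u.1 - pos u.2))).E (fun s => F (u.1 * s))) := rfl
    have e2 : (Law.map Prod.fst π * mA ^ j).E F
        = π.E (fun u => (mA ^ j).E (fun s => F (u.1 * s))) := rfl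
    rw [e1, e2, ← Law.E_const_mul]
    exact π.E_mono fun u => h1 _ _ fun s => hF _
  · intro F hF
    have e1 : (Law.map Prod.snd (Law.bind π (fun u => Law.map (fun z => (u.1 * z.1, u.2 * z.2))
        (κ (pos u.1 - pos u.2))))).E F
        = π.E (fun u => (Law.map Prod.snd (κ (pos u.1 - pos u.2))).E (fun s => F (u.2 * s))) := rfl
    have e2 : (Law.map Prod.snd π * mA ^ j).E F
        = π.E (fun u => (mA ^ j).E (fun s => F (u.2 * s))) := rfl
    rw [e1, e2, ← Law.E_const_mul]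
    exact π.E_mono fun u => h2 _ _ fun s => hF _

/-- every nonnegative unit vector `φ` is tested by an admissible vector with small value -/
theorem exists_test {S : Type*} [CommMonoid S] (pos : S → ZMod Q)
    (hpos : ∀ x y, pos (x * y) = pos x + pos y)
    (mA : Law S) (η : ℝ) (hη : 0 < η)
    (Low : Finset (ZMod Q)) (hν : ∀ r, r ∉ Low → ‖mA.EC fun a => ch (r * pos a)‖ ^ 2 ≤ 1 - η)
    (j : ℕ) (hj : 1 ≤ j) (B : ℝ) (hB : 1 ≤ B) (hjB : 1 / (j : ℝ) ^ 2 + j / B ≤ η / 64)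
    (π : Law (S × S)) (φ : ZMod Q → ℝ) (hφ0 : ∀ x, 0 ≤ φ x) (hφ1 : ∑ x, φ x ^ 2 = 1) :
    ∃ v ∈ KK pos mA j B π, ∑ x, v x * φ x ≤
      Real.sqrt (∑ x, (dlaw pos π).pm x ^ 2) / 8 + Real.sqrt (Low.card / Q) := by
  obtain ⟨Φ, hΦ0, hΦpos, hΦanti, hΦq, hΦP⟩ := exists_Phi (blaw pos mA) B hB φ hφ0
  have hs := fun x => strat pos hpos mA B hB Φ hΦq j x
  choose κ hκ1 hκ2 hκ3 using hs
  obtain ⟨π', hπ', hd1, hd2⟩ := compose_dom pos mA j B π κ hκ1 hκ2
  refine ⟨WithLp.toLp 2 (fun x => (dlaw pos π').pm x), ⟨π', hd1, hd2, fun x => rfl⟩, ?_⟩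
  have e1 : ∑ x, (WithLp.toLp 2 (fun x => (dlaw pos π').pm x) : EuclideanSpace ℝ (ZMod Q)) x * φ x
      = (dlaw pos π').E φ := by
    rw [Law.E_eq_sum]
  rw [e1, hπ']
  have e2 : (dlaw pos (Law.bind π (fun u => Law.map (fun z => (u.1 * z.1, u.2 * z.2))
      (κ (pos u.1 - pos u.2))))).E φ
      = π.E (fun u => (κ (pos u.1 - pos u.2)).E
        (fun z => φ (pos (u.1 * z.1) - pos (u.2 * z.2)))) := rfl
  rw [e2]
  have e3 : π.E (fun u => (κ (pos u.1 - pos u.2)).E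
        (fun z => φ (pos (u.1 * z.1) - pos (u.2 * z.2))))
      ≤ π.E (fun u => Φ j (pos u.1 - pos u.2)) := by
    refine π.E_mono fun u => ?_
    refine le_trans (le_of_eq ?_) (hκ3 (pos u.1 - pos u.2))
    congr 1
    funext z
    rw [hΦ0, hpos, hpos]
    congr 1
    abel
  refine e3.trans ?_
  have e4 : π.E (fun u => Φ j (pos u.1 - pos u.2)) = (dlaw pos π).E (Φ j) := rfl
  rw [e4, Law.E_eq_sum]
  exact value_bound pos mA η hη Low hν j hj B hB hjB φ hφ1 Φ hΦ0 hΦpos hΦanti (hΦP j hj) (dlaw pos π)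

theorem propB {S : Type*} [CommMonoid S] (pos : S → ZMod Q) (hpos : ∀ x y, pos (x * y) = pos x + pos y)
    (mA : Law S) (η : ℝ) (hη : 0 < η)
    (Low : Finset (ZMod Q)) (hν : ∀ r, r ∉ Low → ‖mA.EC fun a => ch (r * pos a)‖ ^ 2 ≤ 1 - η)
    (j : ℕ) (hj : 1 ≤ j) (B : ℝ) (hB : 1 ≤ B) (hjB : 1 / (j : ℝ) ^ 2 + j / B ≤ η / 64)
    (π : Law (S × S)) (ε : ℝ) (hε : 0 < ε) :
    ∃ π' : Law (S × S), Law.Dom (B ^ j) (Law.map Prod.fst π') (Law.map Prod.fst π * mA ^ j) ∧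
      Law.Dom (B ^ j) (Law.map Prod.snd π') (Law.map Prod.snd π * mA ^ j) ∧
      Real.sqrt (∑ x, (dlaw pos π').pm x ^ 2)
        ≤ Real.sqrt (∑ x, (dlaw pos π).pm x ^ 2) / 8 + Real.sqrt (Low.card / Q) + ε := by
  set M : ℝ := Real.sqrt (∑ x, (dlaw pos π).pm x ^ 2) / 8 + Real.sqrt (Low.card / Q) with hM
  have hM0 : 0 ≤ M := by rw [hM]; positivity
  set K : Set (EuclideanSpace ℝ (ZMod Q)) := KK pos mA j B π with hK
  have hconv : Convex ℝ K := KK_convex pos mA j B π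
  -- nonemptiness
  have hQ0 : (0 : ℝ) < Q := by exact_mod_cast Nat.pos_of_ne_zero (NeZero.ne Q)
  have hne : K.Nonempty := by
    obtain ⟨v, hv, -⟩ := exists_test pos hpos mA η hη Low hν j hj B hB hjB π
      (fun x => if x = 0 then 1 else 0) (fun x => by split_ifs <;> norm_num) (by simp)
    exact ⟨v, hv⟩
  have hKpos : ∀ v ∈ closure K, ∀ x, 0 ≤ v x := by
    intro v hv x
    have hclosed : IsClosed {v : EuclideanSpace ℝ (ZMod Q) | 0 ≤ v x} :=
      isClosed_le continuous_const (by fun_prop)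
    have hsub : K ⊆ {v : EuclideanSpace ℝ (ZMod Q) | 0 ≤ v x} := by
      rintro w ⟨π', -, -, hw⟩
      change 0 ≤ w x
      rw [hw x]
      exact Law.pm_nonneg _ _
    exact closure_minimal hsub hclosed hv
  obtain ⟨p, hp, hpmin⟩ := exists_norm_eq_iInf_of_complete_convex (hne.mono subset_closure)
    isClosed_closure.isComplete hconv.closure (0 : EuclideanSpace ℝ (ZMod Q))
  have hinner := (norm_eq_iInf_iff_real_inner_le_zero hconv.closure hp).1 hpmin
  -- the norm of p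
  have hpM : ‖p‖ ≤ M := by
    by_contra hcon
    rw [not_le] at hcon
    have hp0 : 0 < ‖p‖ := lt_of_le_of_lt hM0 hcon
    set φ : ZMod Q → ℝ := fun x => p x / ‖p‖ with hφ
    have hφ0 : ∀ x, 0 ≤ φ x := fun x => div_nonneg (hKpos p hp x) hp0.le
    have hnorm : ∑ x, p x ^ 2 = ‖p‖ ^ 2 := by
      rw [EuclideanSpace.norm_eq, Real.sq_sqrt (Finset.sum_nonneg fun x _ => by positivity)]
      refine Finset.sum_congr rfl fun x _ => ?_
      rw [Real.norm_eq_abs, sq_abs]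
    have hφ1 : ∑ x, φ x ^ 2 = 1 := by
      simp only [hφ, div_pow]
      rw [← Finset.sum_div, hnorm, div_self (by positivity)]
    obtain ⟨v, hv, hvφ⟩ := exists_test pos hpos mA η hη Low hν j hj B hB hjB π φ hφ0 hφ1
    have h1 := hinner v (subset_closure hv)
    have h2 : inner ℝ ((0 : EuclideanSpace ℝ (ZMod Q)) - p) (v - p)
        = ‖p‖ ^ 2 - ∑ x, v x * p x := by
      rw [zero_sub, inner_neg_left, inner_sub_right, real_inner_self_eq_norm_sq]
      have : inner ℝ p v = ∑ x, v x * p x := by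
        rw [PiLp.inner_apply]
        refine Finset.sum_congr rfl fun x _ => ?_
        simp [mul_comm]
      rw [this]
      ring
    rw [h2] at h1
    have h3 : ∑ x, v x * φ x = (∑ x, v x * p x) / ‖p‖ := by
      simp only [hφ]
      rw [Finset.sum_div]
      exact Finset.sum_congr rfl fun x _ => by ring
    rw [h3, div_le_iff₀ hp0] at hvφ
    nlinarith
  obtain ⟨v, hv, hvp⟩ := Metric.mem_closure_iff.1 hp ε hε
  obtain ⟨π', hd1, hd2, hvx⟩ := hv
  refine ⟨π', hd1, hd2, ?_⟩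
  have hvn : Real.sqrt (∑ x, (dlaw pos π').pm x ^ 2) = ‖v‖ := by
    rw [EuclideanSpace.norm_eq]
    congr 1
    refine Finset.sum_congr rfl fun x _ => ?_
    rw [Real.norm_eq_abs, sq_abs, hvx x]
  rw [hvn]
  have : ‖v‖ ≤ ‖p‖ + dist p v := by
    rw [dist_eq_norm]
    calc ‖v‖ = ‖p - (p - v)‖ := by congr 1; abel
      _ ≤ ‖p‖ + ‖p - v‖ := norm_sub_le _ _
  linarith

end MP14ee70.TY
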