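import Mathlib
import Pool.Agent.Lib.MP_14ee70_nt.TY.B.Proj

/-!
# Project TY, file B/Cor: the iterated two-sided walk

`i = ⌈s⌉` applications of `propB` with `ε = sqrt (1/Q) / 100`, `b = i j`: `a_(i+1) ≤ a_i/8 + sqrt (n/Q) + ε`, so
`a_i ≤ 8^(-i) a_0 + (8/7)(sqrt (n/Q) + ε)`; `a_0 ≤ e^(s/2) / sqrt Q` and `8^(-i) e^(s/2) ≤ e^(-s) ≤ 1/2` (`s ≥ 1`,
`8 ≥ e^2`), `n ≥ 1`: `a_i ≤ (0.5 + 1.16) sqrt (n/Q)`, `a_i^2 ≤ 6 n / Q`.
The dominations compose: `U_(i+1) ≤ B^j U_i * mA^j ≤ B^((i+1) j) U * mA^((i+1) j)`.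
-/

namespace MP14ee70.TY

open Finset

variable {Q : ℕ} [NeZero Q]

private theorem corB_dom {S : Type*} [CommMonoid S] {B : ℝ} {j i : ℕ} {p q r m : Law S}
    (h1 : Law.Dom (B ^ j) r (q * m ^ j)) (h2 : Law.Dom (B ^ (i * j)) q (p * m ^ (i * j))) :
    Law.Dom (B ^ ((i + 1) * j)) r (p * m ^ ((i + 1) * j)) := by
  have h3 := h1.trans (h2.mul (Law.Dom.refl (m ^ j)))
  have e1 : B ^ j * (B ^ (i * j) * 1) = B ^ ((i + 1) * j) := by
    rw [mul_one, ← pow_add]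
    congr 1
    ring
  have e2 : p * m ^ (i * j) * m ^ j = p * m ^ ((i + 1) * j) := by
    rw [mul_assoc, ← pow_add]
    congr 2
    ring
  rwa [e1, e2] at h3

private theorem corB_iter {S : Type*} [CommMonoid S] (pos : S → ZMod Q)
    (hpos : ∀ x y, pos (x * y) = pos x + pos y)
    (mA : Law S) (η : ℝ) (hη : 0 < η)
    (Low : Finset (ZMod Q)) (hν : ∀ r, r ∉ Low → ‖mA.EC fun a => ch (r * pos a)‖ ^ 2 ≤ 1 - η)
    (j : ℕ) (hj : 1 ≤ j) (B : ℝ) (hB : 1 ≤ B)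
    (hjB : 1 / (j : ℝ) ^ 2 + j / B ≤ η / 64) (π : Law (S × S)) (ε : ℝ) (hε : 0 < ε) (i : ℕ) :
    ∃ π' : Law (S × S),
      Law.Dom (B ^ (i * j)) (Law.map Prod.fst π') (Law.map Prod.fst π * mA ^ (i * j)) ∧
      Law.Dom (B ^ (i * j)) (Law.map Prod.snd π') (Law.map Prod.snd π * mA ^ (i * j)) ∧
      Real.sqrt (∑ x, (dlaw pos π').pm x ^ 2)
        ≤ (1 / 8) ^ i * Real.sqrt (∑ x, (dlaw pos π).pm x ^ 2)
          + 8 / 7 * (Real.sqrt (Low.card / Q) + ε) := by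
  induction i with
  | zero =>
    refine ⟨π, ?_, ?_, ?_⟩
    · rw [zero_mul, pow_zero, pow_zero, mul_one]
      exact Law.Dom.refl _
    · rw [zero_mul, pow_zero, pow_zero, mul_one]
      exact Law.Dom.refl _
    · have : 0 ≤ 8 / 7 * (Real.sqrt (Low.card / Q) + ε) := by positivity
      rw [pow_zero, one_mul]
      linarith
  | succ i ih =>
    obtain ⟨πi, h1, h2, h3⟩ := ih
    obtain ⟨π', g1, g2, g3⟩ := propB pos hpos mA η hη Low hν j hj B hB hjB πi ε hε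
    refine ⟨π', corB_dom g1 h1, corB_dom g2 h2, g3.trans ?_⟩
    rw [pow_succ]
    linarith

theorem corB {S : Type*} [CommMonoid S] (pos : S → ZMod Q) (hpos : ∀ x y, pos (x * y) = pos x + pos y)
    (mA : Law S) (η : ℝ) (hη : 0 < η)
    (Low : Finset (ZMod Q)) (hν : ∀ r, r ∉ Low → ‖mA.EC fun a => ch (r * pos a)‖ ^ 2 ≤ 1 - η)
    (hLow : 1 ≤ Low.card) (j : ℕ) (hj : 1 ≤ j) (B : ℝ) (hB : 1 ≤ B)
    (hjB : 1 / (j : ℝ) ^ 2 + j / B ≤ η / 64) (π : Law (S × S)) (s : ℝ) (hs : 1 ≤ s)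
    (hπ : ∑ x, (dlaw pos π).pm x ^ 2 ≤ Real.exp s / Q) :
    ∃ (π' : Law (S × S)) (b : ℕ), (b : ℝ) ≤ (s + 1) * j ∧
      Law.Dom (B ^ b) (Law.map Prod.fst π') (Law.map Prod.fst π * mA ^ b) ∧
      Law.Dom (B ^ b) (Law.map Prod.snd π') (Law.map Prod.snd π * mA ^ b) ∧
      ∑ x, (dlaw pos π').pm x ^ 2 ≤ 6 * Low.card / Q := by
  have hQ : (0 : ℝ) < Q := by exact_mod_cast NeZero.pos Q
  have hn : (1 : ℝ) ≤ Low.card := by exact_mod_cast hLow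
  have hsQ : 0 < Real.sqrt (1 / Q) := Real.sqrt_pos.2 (by positivity)
  have hcQ : Real.sqrt (1 / Q) ≤ Real.sqrt (Low.card / Q) :=
    Real.sqrt_le_sqrt (div_le_div_of_nonneg_right hn hQ.le)
  obtain ⟨π', h1, h2, h3⟩ := corB_iter pos hpos mA η hη Low hν j hj B hB hjB π
    (Real.sqrt (1 / Q) / 100) (by positivity) ⌈s⌉₊
  refine ⟨π', ⌈s⌉₊ * j, ?_, h1, h2, ?_⟩
  · push_cast
    exact mul_le_mul_of_nonneg_right (Nat.ceil_lt_add_one (by linarith)).le (Nat.cast_nonneg _)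
  · have hi : s ≤ (⌈s⌉₊ : ℝ) := Nat.le_ceil s
    have he8 : (1 / 8 : ℝ) ≤ Real.exp (-2) := by
      rw [Real.exp_neg, one_div]
      refine inv_anti₀ (Real.exp_pos _) ?_
      have : Real.exp 2 = Real.exp 1 * Real.exp 1 := by rw [← Real.exp_add]; norm_num
      rw [this]
      have h := Real.exp_one_lt_d9
      have h0 := Real.exp_pos 1
      nlinarith
    have hpow : (1 / 8 : ℝ) ^ ⌈s⌉₊ ≤ Real.exp (-2 * s) := by
      calc (1 / 8 : ℝ) ^ ⌈s⌉₊ ≤ Real.exp (-2) ^ ⌈s⌉₊ := pow_le_pow_left₀ (by norm_num) he8 _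
        _ = Real.exp (⌈s⌉₊ * (-2)) := by rw [Real.exp_nat_mul]
        _ ≤ Real.exp (-2 * s) := Real.exp_le_exp.2 (by linarith)
    have ha0 : Real.sqrt (∑ x, (dlaw pos π).pm x ^ 2) ≤ Real.exp (s / 2) * Real.sqrt (1 / Q) := by
      refine (Real.sqrt_le_sqrt hπ).trans_eq ?_
      rw [div_eq_mul_one_div, Real.sqrt_mul (Real.exp_pos _).le]
      congr 1
      rw [Real.exp_half]
    have hhalf : (1 / 8 : ℝ) ^ ⌈s⌉₊ * Real.sqrt (∑ x, (dlaw pos π).pm x ^ 2)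
        ≤ 1 / 2 * Real.sqrt (1 / Q) := by
      calc (1 / 8 : ℝ) ^ ⌈s⌉₊ * Real.sqrt (∑ x, (dlaw pos π).pm x ^ 2)
          ≤ Real.exp (-2 * s) * (Real.exp (s / 2) * Real.sqrt (1 / Q)) :=
            mul_le_mul hpow ha0 (Real.sqrt_nonneg _) (Real.exp_pos _).le
        _ = Real.exp (-2 * s + s / 2) * Real.sqrt (1 / Q) := by rw [Real.exp_add]; ring
        _ ≤ 1 / 2 * Real.sqrt (1 / Q) := by
            refine mul_le_mul_of_nonneg_right ?_ hsQ.le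
            have h4 : Real.exp (-2 * s + s / 2) ≤ Real.exp (-1) :=
              Real.exp_le_exp.2 (by linarith)
            have h5 : Real.exp (-1) < 0.3678794412 := Real.exp_neg_one_lt_d9
            linarith
    have hfin : Real.sqrt (∑ x, (dlaw pos π').pm x ^ 2) ≤ 2 * Real.sqrt (Low.card / Q) := by
      refine h3.trans ?_
      have hc0 := Real.sqrt_nonneg ((Low.card : ℝ) / Q)
      linarith
    have hnn : 0 ≤ ∑ x, (dlaw pos π').pm x ^ 2 := Finset.sum_nonneg fun x _ => sq_nonneg _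
    have h6 : ∑ x, (dlaw pos π').pm x ^ 2 = Real.sqrt (∑ x, (dlaw pos π').pm x ^ 2) ^ 2 :=
      (Real.sq_sqrt hnn).symm
    have h9 : 0 ≤ (Low.card : ℝ) / Q := div_nonneg (Nat.cast_nonneg _) hQ.le
    have h7 : Real.sqrt ((Low.card : ℝ) / Q) ^ 2 = Low.card / Q := Real.sq_sqrt h9
    have h8 : Real.sqrt (∑ x, (dlaw pos π').pm x ^ 2) ^ 2
        ≤ (2 * Real.sqrt ((Low.card : ℝ) / Q)) ^ 2 :=
      pow_le_pow_left₀ (Real.sqrt_nonneg _) hfin 2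
    rw [h6]
    refine h8.trans ?_
    rw [mul_pow, h7, mul_div_assoc]
    linarith

end MP14ee70.TY
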